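import Pool.Agent.H356Z.O2.Poin

set_option autoImplicit false

namespace Pool.Agent.H356Z.O2

open Finset

/-- points of level `k` -/
abbrev Pt (k : ℕ) : Type := {T : Finset (Fin (2 * k + 2)) // k + 1 ≤ T.card}

/-- the small sets of level `k` -/
def Sm (k : ℕ) (i : Fin (2 * k + 2)) : Finset (Pt k) := Finset.univ.filter fun T => i ∈ T.1

lemma half (k : ℕ) (a : Pt k) :
    Fintype.card (Fin (2 * k + 2)) ≤ 2 * (Finset.univ.filter fun i => a ∈ Sm k i).card := by
  have : (Finset.univ.filter fun i => a ∈ Sm k i) = a.1 := by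
    ext i
    simp [Sm]
  rw [this, Fintype.card_fin]
  have := a.2
  omega

abbrev Om : Type := ∀ k, Pt k

abbrev Ix : Type := Σ k : ℕ, Fin (2 * k + 2)

noncomputable def wt (C : Finset Ix) : ℝ := ∑ c ∈ C, ((c.1 : ℝ) + 1)⁻¹

def Cov (C : Finset Ix) (f : Om → ZMod 2) : Prop := ∀ ω, f ω ≠ 0 → ∃ c ∈ C, c.2 ∈ (ω c.1).1

lemma wt_nonneg (C : Finset Ix) : 0 ≤ wt C := Finset.sum_nonneg fun _ _ => by positivity

lemma wt_union (C D : Finset Ix) : wt (C ∪ D) ≤ wt C + wt D := by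
  unfold wt
  rw [← Finset.sum_union_inter]
  have : 0 ≤ ∑ c ∈ C ∩ D, ((c.1 : ℝ) + 1)⁻¹ := Finset.sum_nonneg fun _ _ => by positivity
  linarith

lemma exists_cov (f : Om → ZMod 2) : ∃ C, Cov C f := by
  refine ⟨Finset.univ.image (fun i : Fin (2 * 0 + 2) => (⟨0, i⟩ : Ix)), fun ω _ => ?_⟩
  have h : 0 < (ω 0).1.card := (ω 0).2
  obtain ⟨i, hi⟩ := Finset.card_pos.1 h
  exact ⟨⟨0, i⟩, Finset.mem_image.2 ⟨i, Finset.mem_univ _, rfl⟩, hi⟩

noncomputable def sub (f : Om → ZMod 2) : ℝ := sInf (wt '' {C | Cov C f})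

lemma bdd (f : Om → ZMod 2) : BddBelow (wt '' {C | Cov C f}) :=
  ⟨0, by rintro _ ⟨C, -, rfl⟩; exact wt_nonneg C⟩

lemma nemp (f : Om → ZMod 2) : (wt '' {C | Cov C f}).Nonempty :=
  let ⟨C, hC⟩ := exists_cov f
  ⟨wt C, C, hC, rfl⟩

lemma sub_le {f : Om → ZMod 2} {C : Finset Ix} (h : Cov C f) : sub f ≤ wt C :=
  csInf_le (bdd f) ⟨C, h, rfl⟩

lemma le_sub {f : Om → ZMod 2} {x : ℝ} (h : ∀ C, Cov C f → x ≤ wt C) : x ≤ sub f :=
  le_csInf (nemp f) (by rintro _ ⟨C, hC, rfl⟩; exact h C hC)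

lemma sub_zero' : sub 0 = 0 := by
  refine le_antisymm ?_ (le_sub fun C _ => wt_nonneg C)
  have : sub 0 ≤ wt ∅ := sub_le fun ω h => absurd rfl h
  simpa [wt] using this

lemma sub_add (f g : Om → ZMod 2) : sub (f + g) ≤ sub f + sub g := by
  have h1 : ∀ C, Cov C f → ∀ D, Cov D g → sub (f + g) ≤ wt C + wt D := by
    intro C hC D hD
    refine (sub_le (C := C ∪ D) fun ω h => ?_).trans (wt_union C D)
    by_cases hf : f ω = 0
    · have hg : g ω ≠ 0 := fun hg => h (by simp [hf, hg])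
      obtain ⟨c, hc, h2⟩ := hD ω hg
      exact ⟨c, Finset.mem_union_right _ hc, h2⟩
    · obtain ⟨c, hc, h2⟩ := hC ω hf
      exact ⟨c, Finset.mem_union_left _ hc, h2⟩
  have h2 : ∀ D, Cov D g → sub (f + g) - wt D ≤ sub f := fun D hD =>
    le_sub fun C hC => by linarith [h1 C hC D hD]
  have h3 : sub (f + g) - sub f ≤ sub g := le_sub fun D hD => by linarith [h2 D hD]
  linarith

lemma sub_neg' (f : Om → ZMod 2) : sub (-f) = sub f := by
  unfold sub Cov
  simp

lemma one_le_sub : 1 ≤ sub 1 := by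
  refine le_sub fun C hC => ?_
  by_contra hlt
  push Not at hlt
  have key : ∀ k, (Finset.univ.filter fun i : Fin (2 * k + 2) => (⟨k, i⟩ : Ix) ∈ C).card ≤ k + 1 := by
    intro k
    set J := Finset.univ.filter fun i : Fin (2 * k + 2) => (⟨k, i⟩ : Ix) ∈ C with hJ
    have h1 : wt (J.image fun i => (⟨k, i⟩ : Ix)) ≤ wt C := by
      refine Finset.sum_le_sum_of_subset_of_nonneg ?_ fun _ _ _ => by positivity
      intro c hc
      obtain ⟨i, hi, rfl⟩ := Finset.mem_image.1 hc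
      exact (Finset.mem_filter.1 hi).2
    have h2 : wt (J.image fun i => (⟨k, i⟩ : Ix)) = J.card * ((k : ℝ) + 1)⁻¹ := by
      unfold wt
      rw [Finset.sum_image (fun x _ y _ h => by simpa using h)]
      simp
    have h3 : (J.card : ℝ) * ((k : ℝ) + 1)⁻¹ < 1 := by linarith
    rw [mul_inv_lt_iff₀ (by positivity), one_mul] at h3
    have h4 : J.card < k + 1 := by exact_mod_cast h3
    omega
  let ω : Om := fun k =>
    ⟨(Finset.univ.filter fun i : Fin (2 * k + 2) => (⟨k, i⟩ : Ix) ∈ C)ᶜ, by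
      rw [Finset.card_compl, Fintype.card_fin]
      have := key k
      omega⟩
  obtain ⟨c, hc, h2⟩ := hC ω (by simp)
  have h3 : c.2 ∈ (Finset.univ.filter fun i : Fin (2 * c.1 + 2) => (⟨c.1, i⟩ : Ix) ∈ C)ᶜ := h2
  simp at h3
  exact h3 hc

/-- the countable dense subgroup -/
def B0 : Type := (Σ k, Pt k) →₀ ZMod 2

noncomputable instance : AddCommGroup B0 := inferInstanceAs (AddCommGroup ((Σ k, Pt k) →₀ ZMod 2))

instance : Countable B0 := inferInstanceAs (Countable ((Σ k, Pt k) →₀ ZMod 2))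

noncomputable def ev0 : ((Σ k, Pt k) →₀ ZMod 2) →+ (Om → ZMod 2) :=
  (Finsupp.linearCombination (ZMod 2)
    (fun (x : Σ k, Pt k) (ω : Om) => if ω x.1 = x.2 then (1 : ZMod 2) else 0)).toAddMonoidHom

noncomputable def ev : B0 →+ (Om → ZMod 2) := ev0

noncomputable def io0 (k : ℕ) : (Pt k → ZMod 2) →+ ((Σ k, Pt k) →₀ ZMod 2) where
  toFun r := ∑ a, Finsupp.single ⟨k, a⟩ (r a)
  map_zero' := by simp
  map_add' r s := by simp [Finsupp.single_add, Finset.sum_add_distrib]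

noncomputable def io (k : ℕ) : (Pt k → ZMod 2) →+ B0 := io0 k

lemma ev_io (k : ℕ) (r : Pt k → ZMod 2) (ω : Om) : ev (io k r) ω = r (ω k) := by
  show ev0 (∑ a, Finsupp.single ⟨k, a⟩ (r a)) ω = _
  rw [map_sum, Finset.sum_apply]
  simp [ev0]

noncomputable def sn : AddGroupSeminorm B0 where
  toFun x := sub (ev x)
  map_zero' := by rw [map_zero, sub_zero']
  add_le' x y := by rw [map_add]; exact sub_add _ _
  neg' x := by rw [map_neg, sub_neg']

noncomputable instance : SeminormedAddCommGroup B0 := sn.toSeminormedAddCommGroup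

lemma norm_B0 (x : B0) : ‖x‖ = sub (ev x) := rfl

theorem exists_group :
    ∃ (E : Type) (_ : NormedAddCommGroup E) (_ : PolishSpace E) (x₀ : E), x₀ ≠ 0 ∧
      ∀ k : ℕ, ∃ ι : (Pt k → ZMod 2) →+ E, ι 1 = x₀ ∧
        ∀ i, ∀ r ∈ supp (Sm k i), ‖ι r‖ ≤ ((k : ℝ) + 1)⁻¹ := by
  let E := UniformSpace.Completion B0
  have hsep : TopologicalSpace.SeparableSpace B0 := inferInstance
  have hP : PolishSpace E := inferInstance
  have h1 : ∀ k, ev (io k 1) = 1 := fun k => funext fun ω => ev_io k 1 ω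
  refine ⟨E, inferInstance, hP, ((io 0 1 : B0) : E), ?_, fun k =>
    ⟨UniformSpace.Completion.toCompl.comp (io k), ?_, fun i r hr => ?_⟩⟩
  · intro h
    have h2 : ‖((io 0 1 : B0) : E)‖ = sub 1 := by
      rw [UniformSpace.Completion.norm_coe, norm_B0, h1]
    rw [h, norm_zero] at h2
    linarith [one_le_sub]
  · show ((io k 1 : B0) : E) = ((io 0 1 : B0) : E)
    rw [← sub_eq_zero, ← norm_eq_zero, ← UniformSpace.Completion.coe_sub,
      UniformSpace.Completion.norm_coe, norm_B0, map_sub, h1, h1, sub_self, sub_zero']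
  · show ‖((io k r : B0) : E)‖ ≤ _
    rw [UniformSpace.Completion.norm_coe, norm_B0]
    refine (sub_le (C := {⟨k, i⟩}) fun ω h => ?_).trans (by simp [wt])
    rw [ev_io] at h
    refine ⟨⟨k, i⟩, Finset.mem_singleton_self _, ?_⟩
    by_contra hcon
    simp only [supp, Finset.mem_filter, Finset.mem_univ, true_and] at hr
    exact h (hr _ (by simpa [Sm] using hcon))

end Pool.Agent.H356Z.O2
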