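import Pool.Agent.H356Z.O2.Model
import Pool.Agent.H356Z.O2.Grp

set_option autoImplicit false

namespace Pool.Agent.H356Z.O2

open Finset

theorem key {A : Type} [CStarAlgebra A] {H : Type} [NormedAddCommGroup H] [InnerProductSpace ℂ H]
    (V : A →ₗ[ℂ] H) (hV1 : ∀ t, ‖V t‖ ≤ ‖t‖) (hV2 : ∀ s t, ‖V (s * t)‖ ≤ ‖s‖ * ‖V t‖)
    (hV3 : ∀ (t : A) (c : ℝ), ‖star t * t - (c : ℂ) • (1 : A)‖ ≤ c / 2 → c / 2 ≤ ‖V t‖ ^ 2)
    (hV4 : ∀ y : A, y ≠ 0 → ∃ (w : A) (c : ℝ), 0 < c ∧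
      ‖star (y * w) * (y * w) - (c : ℂ) • (1 : A)‖ ≤ c / 2)
    {E : Type} [NormedAddCommGroup E] (x₀ : E)
    (hE : ∀ k : ℕ, ∃ ι : (Pt k → ZMod 2) →+ E, ι 1 = x₀ ∧
      ∀ i, ∀ r ∈ supp (Sm k i), ‖ι r‖ ≤ ((k : ℝ) + 1)⁻¹)
    (α : E → (A ≃⋆ₐ[ℂ] A)) (hα : ∀ g h a, α (g + h) a = α g (α h a))
    (hc : ∀ a, Continuous fun g => α g a) (a : A) : α x₀ a = a := by
  have hiso : ∀ g t, ‖α g t‖ = ‖t‖ := fun g t =>
    NonUnitalStarAlgHom.norm_map (α g) (α g).injective t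
  have h0 : ∀ t, α 0 t = t := fun t => by
    have := hα 0 0 t
    rw [add_zero] at this
    exact ((α 0).injective this).symm
  by_contra hne
  obtain ⟨w, c, hcpos, hw⟩ := hV4 (α x₀ a - a) (sub_ne_zero.2 hne)
  set K : ℝ := 16 * (‖a‖ ^ 2 + 1) with hK
  have hKpos : 0 < K := by positivity
  -- choose η with K η^2 < c / 2
  obtain ⟨η, hη, hηc⟩ : ∃ η : ℝ, 0 < η ∧ K * η ^ 2 < c / 2 := by
    refine ⟨Real.sqrt (c / (4 * K)), by positivity, ?_⟩
    rw [Real.sq_sqrt (by positivity)]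
    have : K * (c / (4 * K)) = c / 4 := by field_simp
    rw [this]; linarith
  have hcont : ∀ t : A, ∃ δ > 0, ∀ g : E, ‖g‖ < δ → ‖α g t - t‖ < η := by
    intro t
    obtain ⟨δ, hδ, h⟩ := Metric.continuous_iff.1 (hc t) 0 η hη
    refine ⟨δ, hδ, fun g hg => ?_⟩
    have := h g (by simpa using hg)
    rwa [h0, dist_eq_norm] at this
  obtain ⟨δ₁, hδ₁, h1⟩ := hcont w
  obtain ⟨δ₂, hδ₂, h2⟩ := hcont (a * w)
  obtain ⟨k, hk⟩ := exists_nat_one_div_lt (lt_min hδ₁ hδ₂)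
  rw [one_div] at hk
  obtain ⟨ι, hι1, hι2⟩ := hE k
  set N : ℝ := (Fintype.card (Pt k → ZMod 2) : ℝ) with hN
  have hNpos : 0 < N := by rw [hN]; exact_mod_cast Fintype.card_pos
  have hshift : ∀ (t : A) (g r : Pt k → ZMod 2),
      V (α (ι (g + r)) t) - V (α (ι g) t) = V (α (ι g) (α (ι r) t - t)) := by
    intro t g r
    rw [map_add, hα, map_sub, map_sub]
  have hen : ∀ t : A, (∀ g : E, ‖g‖ < min δ₁ δ₂ → ‖α g t - t‖ < η) →
      en (fun g => V (α (ι g) t)) 1 ≤ 4 * (N * η ^ 2) := by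
    intro t ht
    refine poincare (Sm k) (half k) _ _ fun i r hr => ?_
    unfold en
    calc _ ≤ ∑ _g : Pt k → ZMod 2, η ^ 2 := by
          refine Finset.sum_le_sum fun g _ => ?_
          rw [hshift]
          have := (hV1 (α (ι g) (α (ι r) t - t))).trans
            ((hiso _ _).le.trans (ht _ ((hι2 i r hr).trans_lt hk)).le)
          gcongr
      _ = _ := by rw [Finset.sum_const, Finset.card_univ, nsmul_eq_mul]
  have e1 := hen w fun g hg => h1 g (hg.trans_le (min_le_left _ _))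
  have e2 := hen (a * w) fun g hg => h2 g (hg.trans_le (min_le_right _ _))
  unfold en at e1 e2
  simp only [hshift, hι1] at e1 e2
  have hpt : ∀ g : Pt k → ZMod 2, c / 2 ≤
      2 * ‖a‖ ^ 2 * ‖V (α (ι g) (α x₀ w - w))‖ ^ 2 +
        2 * ‖V (α (ι g) (α x₀ (a * w) - a * w))‖ ^ 2 := by
    intro g
    have k1 : c / 2 ≤ ‖V (α (ι g) ((α x₀ a - a) * w))‖ ^ 2 := by
      refine hV3 _ c ?_
      have := hiso (ι g) (star ((α x₀ a - a) * w) * ((α x₀ a - a) * w) - (c : ℂ) • (1 : A))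
      rw [map_sub, map_mul, map_star, map_smul, map_one] at this
      rw [this]
      exact hw
    have k2 : (α x₀ a - a) * w = (α x₀ (a * w) - a * w) - α x₀ a * (α x₀ w - w) := by
      rw [map_mul]; noncomm_ring
    have k3 : ‖V (α (ι g) ((α x₀ a - a) * w))‖ ≤
        ‖V (α (ι g) (α x₀ (a * w) - a * w))‖ + ‖a‖ * ‖V (α (ι g) (α x₀ w - w))‖ := by
      rw [k2, map_sub, map_sub V]
      refine (norm_sub_le _ _).trans (add_le_add le_rfl ?_)
      rw [map_mul]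
      refine (hV2 _ _).trans ?_
      rw [hiso, hiso]
    set p := ‖V (α (ι g) (α x₀ (a * w) - a * w))‖
    set q := ‖a‖ * ‖V (α (ι g) (α x₀ w - w))‖ with hq
    have k4 : ‖V (α (ι g) ((α x₀ a - a) * w))‖ ^ 2 ≤ (p + q) ^ 2 := by gcongr
    have k5 : 2 * ‖a‖ ^ 2 * ‖V (α (ι g) (α x₀ w - w))‖ ^ 2 = 2 * q ^ 2 := by rw [hq]; ring
    rw [k5]
    nlinarith [sq_nonneg (p - q)]
  have hsum := Finset.sum_le_sum fun g (_ : g ∈ Finset.univ) => hpt g
  rw [Finset.sum_const, Finset.card_univ, nsmul_eq_mul, Finset.sum_add_distrib,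
    ← Finset.mul_sum, ← Finset.mul_sum, ← hN] at hsum
  have e3 : 2 * ‖a‖ ^ 2 * ∑ g, ‖V (α (ι g) (α x₀ w - w))‖ ^ 2 ≤
      2 * ‖a‖ ^ 2 * (4 * (N * η ^ 2)) := by gcongr
  have e4 : N * (c / 2) ≤ N * (K * η ^ 2) := by
    have : 0 ≤ N * η ^ 2 := by positivity
    have : 0 ≤ ‖a‖ ^ 2 * (N * η ^ 2) := by positivity
    rw [hK]; nlinarith
  have := le_of_mul_le_mul_left e4 hNpos
  linarith

theorem main :
    ¬ (∀ (A : Type) [CStarAlgebra A] [Nontrivial A] (s₁ s₂ : A),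
    star s₁ * s₁ = 1 → star s₂ * s₂ = 1 → s₁ * star s₁ + s₂ * star s₂ = 1 →
    (StarAlgebra.adjoin ℂ ({s₁, s₂} : Set A)).topologicalClosure = ⊤ →
    ∀ (G : Type) [Group G] [TopologicalSpace G] [IsTopologicalGroup G] [PolishSpace G],
      ∃ φ : G → (A ≃⋆ₐ[ℂ] A),
        (∀ g h : G, ∀ a : A, φ (g * h) a = φ g (φ h a)) ∧
        Topology.IsEmbedding (fun g : G => (⇑(φ g) : A → A))) := by
  intro h
  obtain ⟨A, _, _, s₁, s₂, h1, h2, h3, h4, H, _, _, V, hV1, hV2, hV3, hV4⟩ := exists_model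
  obtain ⟨E, _, hP, x₀, hx₀, hE⟩ := exists_group
  have hP' : PolishSpace (Multiplicative E) := hP
  obtain ⟨φ, hφ1, hφ2⟩ := h A s₁ s₂ h1 h2 h3 h4 (Multiplicative E)
  have hα : ∀ g h a, φ (Multiplicative.ofAdd (g + h)) a =
      φ (Multiplicative.ofAdd g) (φ (Multiplicative.ofAdd h) a) := fun g h a => hφ1 _ _ a
  have k := key V hV1 hV2 hV3 hV4 x₀ hE (fun g => φ (Multiplicative.ofAdd g)) hα
    (fun a => ((continuous_apply a).comp hφ2.continuous).comp continuous_ofAdd)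
  have h0 : ∀ t, φ (Multiplicative.ofAdd 0) t = t := fun t => by
    have := hα 0 0 t
    rw [add_zero] at this
    exact ((φ _).injective this).symm
  have : Multiplicative.ofAdd x₀ = Multiplicative.ofAdd (0 : E) :=
    hφ2.injective (funext fun a => (k a).trans (h0 a).symm)
  exact hx₀ (Multiplicative.ofAdd.injective this)

end Pool.Agent.H356Z.O2
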