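import Pool.Agent.H356Z.O2.Words

set_option autoImplicit false

namespace Pool.Agent.H356Z.O2

open scoped InnerProductSpace

section

variable {X H : Type} [NormedAddCommGroup H] [InnerProductSpace ℂ H] [CompleteSpace H]

lemma ext_basis (b : HilbertBasis X ℂ H) {S T : H →L[ℂ] H} (h : ∀ x, S (b x) = T (b x)) :
    S = T := by
  refine ContinuousLinearMap.ext_on (s := Set.range b) ?_ ?_
  · rw [Submodule.dense_iff_topologicalClosure_eq_top]
    exact b.dense_span
  · rintro _ ⟨x, rfl⟩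
    exact h x

lemma eq_zero_basis (b : HilbertBasis X ℂ H) {v : H} (h : ∀ x, ⟪b x, v⟫_ℂ = 0) : v = 0 := by
  have : b.repr v = 0 := by
    ext x
    rw [b.repr_apply_apply, h]
    rfl
  simpa using this

lemma exists_iso (b : HilbertBasis X ℂ H) (σ : X → X) (hσ : Function.Injective σ) :
    ∃ S : H →L[ℂ] H, star S * S = 1 ∧ ∀ x, S (b x) = b (σ x) := by
  classical
  have ho : Orthonormal ℂ (fun x => b (σ x)) := b.orthonormal.comp σ hσ
  let T : H →ₗᵢ[ℂ] H := ho.orthogonalFamily.linearIsometry.comp b.repr.toLinearIsometry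
  refine ⟨T.toContinuousLinearMap, T.adjoint_comp_self, fun x => ?_⟩
  show ho.orthogonalFamily.linearIsometry (b.repr (b x)) = _
  rw [b.repr_self, OrthogonalFamily.linearIsometry_apply_single]
  simp

end

theorem exists_model :
    ∃ (A : Type) (_ : CStarAlgebra A) (_ : Nontrivial A) (s₁ s₂ : A),
      star s₁ * s₁ = 1 ∧ star s₂ * s₂ = 1 ∧ s₁ * star s₁ + s₂ * star s₂ = 1 ∧
      (StarAlgebra.adjoin ℂ ({s₁, s₂} : Set A)).topologicalClosure = ⊤ ∧
      ∃ (H : Type) (_ : NormedAddCommGroup H) (_ : InnerProductSpace ℂ H) (V : A →ₗ[ℂ] H),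
        (∀ t, ‖V t‖ ≤ ‖t‖) ∧ (∀ s t, ‖V (s * t)‖ ≤ ‖s‖ * ‖V t‖) ∧
        (∀ (t : A) (c : ℝ), ‖star t * t - (c : ℂ) • (1 : A)‖ ≤ c / 2 → c / 2 ≤ ‖V t‖ ^ 2) ∧
        ∀ y : A, y ≠ 0 → ∃ (w : A) (c : ℝ), 0 < c ∧
          ‖star (y * w) * (y * w) - (c : ℂ) • (1 : A)‖ ≤ c / 2 := by
  classical
  let H : Type := lp (fun _ : AP => ℂ) 2
  let b : HilbertBasis AP ℂ H := default
  have hS : ∀ i : Bool, ∃ S : H →L[ℂ] H, star S * S = 1 ∧ ∀ x, S (b x) = b (AP.cons i x) :=
    fun i => exists_iso b (AP.cons i) (AP.cons_injective i)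
  choose S hS1 hS2 using hS
  have horth : ∀ i j, star (S i) * S j = if i = j then 1 else 0 := by
    intro i j
    split_ifs with h
    · subst h; exact hS1 i
    · refine ext_basis b fun x => ?_
      refine eq_zero_basis b fun y => ?_
      rw [mul_apply_eq_comp, ContinuousLinearMap.star_eq_adjoint,
        ContinuousLinearMap.adjoint_inner_right, hS2, hS2]
      exact b.orthonormal.2 (AP.cons_ne h y x)
  have hsum : S true * star (S true) + S false * star (S false) = 1 := by
    refine ext_basis b fun x => ?_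
    have k : ∀ i, (S i * star (S i)) (b x) = if i = x.1 0 then b x else 0 := by
      intro i
      conv_lhs => rw [← AP.cons_tail x, ← hS2]
      rw [← mul_apply_eq_comp, mul_assoc, horth]
      split_ifs with h
      · rw [mul_one, hS2, h, AP.cons_tail]
      · simp
    rw [add_apply, k, k]
    cases x.1 0 <;> simp
  let D : StarSubalgebra ℂ (H →L[ℂ] H) := (StarAlgebra.adjoin ℂ (Set.range S)).topologicalClosure
  have hD : IsClosed (D : Set (H →L[ℂ] H)) := StarSubalgebra.isClosed_topologicalClosure _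
  letI inst : CStarAlgebra D := StarSubalgebra.cstarAlgebra D (h_closed := hD)
  have hmem : ∀ i, S i ∈ D := fun i =>
    StarSubalgebra.le_topologicalClosure _ (StarAlgebra.subset_adjoin ℂ _ ⟨i, rfl⟩)
  let g : Bool → D := fun i => ⟨S i, hmem i⟩
  let π : D →⋆ₐ[ℂ] (H →L[ℂ] H) := D.subtype
  have hπ : Function.Injective π := Subtype.val_injective
  have hg : ∀ i j, star (g i) * g j = if i = j then 1 else 0 := by
    intro i j
    apply hπ
    rw [map_mul, map_star]
    show star (S i) * S j = _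
    rw [horth]
    split_ifs <;> simp
  have he : ∀ i ω, π (g i) (b ω) = b (AP.cons i ω) := hS2
  have hgen : (StarAlgebra.adjoin ℂ (Set.range g)).topologicalClosure = ⊤ := by
    apply StarSubalgebra.map_injective hπ
    rw [← StarSubalgebra.topologicalClosure_map _ π hD.isClosedEmbedding_subtypeVal.isClosedMap
      continuous_subtype_val, StarAlgHom.map_adjoin]
    have e1 : π '' Set.range g = Set.range S := by
      rw [← Set.range_comp]; rfl
    rw [e1]
    ext x
    simp only [StarSubalgebra.mem_map, StarSubalgebra.mem_top, true_and]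
    exact ⟨fun hx => ⟨⟨x, hx⟩, rfl⟩, fun ⟨y, hy⟩ => hy ▸ y.2⟩
  obtain ⟨ω₀⟩ : Nonempty AP := inferInstance
  have hb1 : ∀ x, ‖b x‖ = 1 := b.orthonormal.1
  have hnt : Nontrivial D := by
    refine ⟨⟨0, 1, fun h => ?_⟩⟩
    have h1 : π 0 (b ω₀) = π 1 (b ω₀) := by rw [h]
    rw [map_zero, map_one] at h1
    have h2 := hb1 ω₀
    have h3 : b ω₀ = 0 := by simpa using h1.symm
    rw [h3] at h2
    simp at h2
  have hsq : ∀ (t : D) (x : AP), ⟪b x, π (star t * t) (b x)⟫_ℂ = ((‖π t (b x)‖ ^ 2 : ℝ) : ℂ) := by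
    intro t x
    rw [map_mul, map_star, mul_apply_eq_comp, ContinuousLinearMap.star_eq_adjoint,
      ContinuousLinearMap.adjoint_inner_right, inner_self_eq_norm_sq_to_K]
    simp
  let V : D →ₗ[ℂ] H :=
    { toFun := fun t => π t (b ω₀)
      map_add' := fun s t => by rw [map_add]; rfl
      map_smul' := fun c t => by rw [map_smul]; rfl }
  have hV : ∀ t, V t = π t (b ω₀) := fun _ => rfl
  refine ⟨D, inst, hnt, g true, g false, by simpa using hg true true,
    by simpa using hg false false, ?_, ?_, H, inferInstance, inferInstance, V, ?_, ?_, ?_, ?_⟩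
  · apply hπ
    rw [map_add, map_mul, map_mul, map_star, map_star, map_one]
    exact hsum
  · rw [← hgen]
    congr 2
    ext x
    simp only [Set.mem_insert_iff, Set.mem_singleton_iff, Set.mem_range, Bool.exists_bool]
    tauto
  · intro t
    rw [hV]
    calc _ ≤ ‖π t‖ * ‖b ω₀‖ := ContinuousLinearMap.le_opNorm _ _
      _ = ‖π t‖ := by rw [hb1, mul_one]
      _ ≤ _ := NonUnitalStarAlgHom.norm_apply_le π _
  · intro s t
    rw [hV, hV, map_mul, mul_apply_eq_comp]
    calc _ ≤ ‖π s‖ * ‖π t (b ω₀)‖ := ContinuousLinearMap.le_opNorm _ _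
      _ ≤ _ := by gcongr; exact NonUnitalStarAlgHom.norm_apply_le π _
  · intro t c h
    have h1 : ‖⟪b ω₀, π (star t * t - (c : ℂ) • (1 : D)) (b ω₀)⟫_ℂ‖ ≤ c / 2 := by
      calc _ ≤ ‖b ω₀‖ * ‖π (star t * t - (c : ℂ) • (1 : D)) (b ω₀)‖ := norm_inner_le_norm _ _
        _ ≤ ‖b ω₀‖ * (‖π (star t * t - (c : ℂ) • (1 : D))‖ * ‖b ω₀‖) := by
          gcongr; exact ContinuousLinearMap.le_opNorm _ _
        _ = ‖π (star t * t - (c : ℂ) • (1 : D))‖ := by rw [hb1]; ring
        _ ≤ _ := (NonUnitalStarAlgHom.norm_apply_le π _).trans h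
    rw [map_sub, sub_apply, inner_sub_right, hsq, map_smul, map_one, smul_apply,
      inner_smul_right, one_apply_eq_self, inner_self_eq_norm_sq_to_K, hb1] at h1
    have h2 : ((‖π t (b ω₀)‖ ^ 2 : ℝ) : ℂ) - (c : ℂ) * ((1 : ℝ) : ℂ) ^ 2 =
        ((‖π t (b ω₀)‖ ^ 2 - c : ℝ) : ℂ) := by push_cast; ring
    erw [h2] at h1
    rw [Complex.norm_real, Real.norm_eq_abs, abs_le] at h1
    rw [hV]
    linarith [h1.1]
  · intro y hy
    have h1 : ∃ x, π y (b x) ≠ 0 := by
      by_contra hcon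
      push Not at hcon
      apply hy
      apply hπ
      rw [map_zero]
      exact ext_basis b fun x => by rw [hcon x]; rfl
    obtain ⟨x, hx⟩ := h1
    have hc : 0 < ‖π y (b x)‖ ^ 2 := by positivity
    obtain ⟨w, hw⟩ := compress_closure hg he b.orthonormal hgen x (star y * y)
      (ε := ‖π y (b x)‖ ^ 2 / 2) (by positivity)
    refine ⟨w, ‖π y (b x)‖ ^ 2, hc, ?_⟩
    rw [hsq] at hw
    rw [star_mul, mul_assoc, ← mul_assoc (star y), ← mul_assoc]
    exact hw

end Pool.Agent.H356Z.O2
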