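import Mathlib

set_option autoImplicit false

namespace Pool.Agent.H356Z.O2

open scoped InnerProductSpace
open Finset

section

variable {Γ : Type} [AddCommGroup Γ] [Fintype Γ] [DecidableEq Γ]
  {H : Type} [NormedAddCommGroup H] [InnerProductSpace ℂ H]

/-- Fourier coefficient of a vector valued function -/
noncomputable def fc (f : Γ → H) (ψ : AddChar Γ ℂ) : H := ∑ g, ψ g • f g

lemma corr (f : Γ → H) (r : Γ) :
    ∑ ψ : AddChar Γ ℂ, ⟪fc f ψ, fc f ψ⟫_ℂ * ψ (-r) =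
      (Fintype.card Γ : ℂ) * ∑ g, ⟪f g, f (g + r)⟫_ℂ := by
  have h1 : ∀ ψ : AddChar Γ ℂ, ⟪fc f ψ, fc f ψ⟫_ℂ * ψ (-r) =
      ∑ g, ∑ h, ψ (h - (g + r)) * ⟪f g, f h⟫_ℂ := by
    intro ψ
    unfold fc
    rw [sum_inner, Finset.sum_mul]
    refine Finset.sum_congr rfl fun g _ => ?_
    rw [inner_sum, Finset.sum_mul]
    refine Finset.sum_congr rfl fun h _ => ?_
    rw [inner_smul_left, inner_smul_right, ← AddChar.map_neg_eq_conj,
      show h - (g + r) = -g + h + -r by abel, AddChar.map_add_eq_mul, AddChar.map_add_eq_mul]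
    ring
  simp_rw [h1]
  rw [Finset.sum_comm, Finset.mul_sum]
  refine Finset.sum_congr rfl fun g _ => ?_
  rw [Finset.sum_comm]
  simp_rw [← Finset.sum_mul, AddChar.sum_apply_eq_ite, sub_eq_zero]
  simp

/-- the energy of a shift -/
noncomputable def en (f : Γ → H) (r : Γ) : ℝ := ∑ g, ‖f (g + r) - f g‖ ^ 2

lemma en_eq (f : Γ → H) (r : Γ) :
    (Fintype.card Γ : ℝ) * en f r =
      ∑ ψ : AddChar Γ ℂ, ‖fc f ψ‖ ^ 2 * (2 - 2 * (ψ r).re) := by
  have h0 := congrArg Complex.re (corr f 0)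
  have h1 := congrArg Complex.re (corr f r)
  have k : ∀ (s : Γ), (∑ ψ : AddChar Γ ℂ, ⟪fc f ψ, fc f ψ⟫_ℂ * ψ (-s)).re =
      ∑ ψ : AddChar Γ ℂ, ‖fc f ψ‖ ^ 2 * (ψ s).re := by
    intro s
    rw [Complex.re_sum]
    refine Finset.sum_congr rfl fun ψ _ => ?_
    rw [inner_self_eq_norm_sq_to_K, AddChar.map_neg_eq_conj]
    have : ((‖fc f ψ‖ : ℝ) : ℂ) ^ 2 = ((‖fc f ψ‖ ^ 2 : ℝ) : ℂ) := by push_cast; ring
    erw [this]
    rw [Complex.re_ofReal_mul, Complex.conj_re]
  rw [k] at h0 h1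
  have k2 : ∀ z : ℂ, ((Fintype.card Γ : ℂ) * z).re = (Fintype.card Γ : ℝ) * z.re := by
    intro z; simp
  rw [k2, Complex.re_sum] at h0 h1
  have e1 : en f r = 2 * ∑ g, (⟪f g, f (g + 0)⟫_ℂ).re - 2 * ∑ g, (⟪f g, f (g + r)⟫_ℂ).re := by
    unfold en
    have a1 : ∀ g, ‖f (g + r) - f g‖ ^ 2 =
        ‖f (g + r)‖ ^ 2 + ‖f g‖ ^ 2 - 2 * (⟪f g, f (g + r)⟫_ℂ).re := by
      intro g
      rw [norm_sub_rev, @norm_sub_sq ℂ]
      simp only [RCLike.re_to_complex]
      ring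
    have a2 : ∀ g, (⟪f g, f (g + 0)⟫_ℂ).re = ‖f g‖ ^ 2 := by
      intro g
      rw [add_zero, ← RCLike.re_to_complex, inner_self_eq_norm_sq]
    have a3 : ∑ g, ‖f (g + r)‖ ^ 2 = ∑ g, ‖f g‖ ^ 2 :=
      Equiv.sum_comp (Equiv.addRight r) (fun g => ‖f g‖ ^ 2)
    simp_rw [a1, a2]
    rw [Finset.sum_sub_distrib, Finset.sum_add_distrib, a3, ← Finset.mul_sum]
    ring
  rw [e1, mul_sub, mul_left_comm, ← h0, mul_left_comm, ← h1, Finset.mul_sum, Finset.mul_sum,
    ← Finset.sum_sub_distrib]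
  refine Finset.sum_congr rfl fun ψ _ => ?_
  simp only [AddChar.map_zero_eq_one, Complex.one_re]
  ring

end

section

variable {P I : Type} [Fintype P] [DecidableEq P] [Fintype I] [DecidableEq I]
  {H : Type} [NormedAddCommGroup H] [InnerProductSpace ℂ H]

/-- functions supported in `S` -/
def supp (S : Finset P) : Finset (P → ZMod 2) := Finset.univ.filter fun r => ∀ a, a ∉ S → r a = 0

lemma sum_supp (S : Finset P) (ψ : AddChar (P → ZMod 2) ℂ) {a : P} (ha : a ∈ S)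
    (hψ : ψ (Pi.single a 1) ≠ 1) : ∑ r ∈ supp S, ψ r = 0 := by
  have h1 : ∑ r ∈ supp S, ψ r = ∑ r ∈ supp S, ψ (r + Pi.single a 1) := by
    symm
    refine Finset.sum_equiv (Equiv.addRight (Pi.single a 1)) ?_ (fun _ _ => rfl)
    intro r
    simp only [supp, Finset.mem_filter, Finset.mem_univ, true_and, Equiv.coe_addRight,
      Pi.add_apply]
    refine forall_congr' fun x => forall_congr' fun hx => ?_
    rw [Pi.single_eq_of_ne (fun e : x = a => hx (e ▸ ha)), add_zero]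
  simp_rw [AddChar.map_add_eq_mul] at h1
  rw [← Finset.sum_mul] at h1
  by_contra hne
  apply hψ
  have := mul_left_cancel₀ hne ((mul_one _).trans h1)
  exact this.symm

lemma supp_pos (S : Finset P) : 0 < (supp S).card :=
  Finset.card_pos.2 ⟨0, by simp [supp]⟩

lemma re_le_one (ψ : AddChar (P → ZMod 2) ℂ) (r : P → ZMod 2) : |(ψ r).re| ≤ 1 :=
  (Complex.abs_re_le_norm _).trans (by rw [AddChar.norm_apply])

lemma char_ineq (S : I → Finset P)
    (hS : ∀ a, Fintype.card I ≤ 2 * (Finset.univ.filter fun i => a ∈ S i).card)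
    (ψ : AddChar (P → ZMod 2) ℂ) :
    (Fintype.card I : ℝ) * (2 - 2 * (ψ 1).re) ≤
      4 * ∑ i, ((supp (S i)).card : ℝ)⁻¹ * ∑ r ∈ supp (S i), (2 - 2 * (ψ r).re) := by
  have hnn : ∀ i, 0 ≤ ((supp (S i)).card : ℝ)⁻¹ * ∑ r ∈ supp (S i), (2 - 2 * (ψ r).re) := by
    intro i
    refine mul_nonneg (by positivity) (Finset.sum_nonneg fun r _ => ?_)
    have := abs_le.1 (re_le_one ψ r)
    linarith [this.2]
  by_cases h : ∀ a, ψ (Pi.single a 1) = 1
  · have h1 : ψ 1 = 1 := by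
      have e : (1 : P → ZMod 2) = ∑ a, Pi.single a 1 := by
        rw [Finset.univ_sum_single (fun _ : P => (1 : ZMod 2))]; rfl
      rw [e]
      refine Finset.sum_induction _ (fun x => ψ x = 1) (fun x y hx hy => ?_) ψ.map_zero_eq_one
        (fun a _ => h a)
      rw [AddChar.map_add_eq_mul, hx, hy, mul_one]
    rw [h1]
    simp only [Complex.one_re, mul_one, sub_self, mul_zero]
    exact mul_nonneg (by norm_num) (Finset.sum_nonneg fun i _ => hnn i)
  · push Not at h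
    obtain ⟨a, ha⟩ := h
    have h2 : ∀ i, a ∈ S i →
        ((supp (S i)).card : ℝ)⁻¹ * ∑ r ∈ supp (S i), (2 - 2 * (ψ r).re) = 2 := by
      intro i hi
      have h3 := congrArg Complex.re (sum_supp (S i) ψ hi ha)
      rw [Complex.re_sum, Complex.zero_re] at h3
      rw [Finset.sum_sub_distrib, ← Finset.mul_sum, h3, Finset.sum_const, nsmul_eq_mul]
      have : ((supp (S i)).card : ℝ) ≠ 0 := by exact_mod_cast (supp_pos (S i)).ne'
      field_simp
      ring
    have h4 : ∑ i ∈ Finset.univ.filter fun i => a ∈ S i, (2 : ℝ) ≤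
        ∑ i, ((supp (S i)).card : ℝ)⁻¹ * ∑ r ∈ supp (S i), (2 - 2 * (ψ r).re) := by
      calc _ = ∑ i ∈ Finset.univ.filter fun i => a ∈ S i,
            ((supp (S i)).card : ℝ)⁻¹ * ∑ r ∈ supp (S i), (2 - 2 * (ψ r).re) :=
            Finset.sum_congr rfl fun i hi => (h2 i (Finset.mem_filter.1 hi).2).symm
        _ ≤ _ := Finset.sum_le_sum_of_subset_of_nonneg (Finset.filter_subset _ _)
            fun i _ _ => hnn i
    rw [Finset.sum_const, nsmul_eq_mul] at h4
    have h5 : (Fintype.card I : ℝ) ≤ 2 * (Finset.univ.filter fun i => a ∈ S i).card := by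
      exact_mod_cast hS a
    have h6 := abs_le.1 (re_le_one ψ 1)
    have h7 : (0 : ℝ) ≤ Fintype.card I := Nat.cast_nonneg _
    nlinarith [h6.1]

/-- Poincare type inequality. -/
theorem poincare [Nonempty I] (S : I → Finset P)
    (hS : ∀ a, Fintype.card I ≤ 2 * (Finset.univ.filter fun i => a ∈ S i).card)
    (f : (P → ZMod 2) → H) (M : ℝ) (hM : ∀ i, ∀ r ∈ supp (S i), en f r ≤ M) :
    en f 1 ≤ 4 * M := by
  have hN : (0 : ℝ) < Fintype.card (P → ZMod 2) := by exact_mod_cast Fintype.card_pos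
  have hI : (0 : ℝ) < Fintype.card I := by exact_mod_cast Fintype.card_pos
  have h1 : (Fintype.card I : ℝ) * ((Fintype.card (P → ZMod 2) : ℝ) * en f 1) ≤
      4 * ∑ i, ((supp (S i)).card : ℝ)⁻¹ *
        ∑ r ∈ supp (S i), (Fintype.card (P → ZMod 2) : ℝ) * en f r := by
    simp_rw [en_eq]
    rw [Finset.mul_sum]
    calc _ ≤ ∑ ψ : AddChar (P → ZMod 2) ℂ, ‖fc f ψ‖ ^ 2 * (4 * ∑ i, ((supp (S i)).card : ℝ)⁻¹ *
          ∑ r ∈ supp (S i), (2 - 2 * (ψ r).re)) := by
          refine Finset.sum_le_sum fun ψ _ => ?_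
          rw [mul_left_comm]
          exact mul_le_mul_of_nonneg_left (char_ineq S hS ψ) (by positivity)
      _ = _ := by
          simp_rw [Finset.mul_sum]
          rw [Finset.sum_comm]
          refine Finset.sum_congr rfl fun i _ => ?_
          rw [Finset.sum_comm]
          refine Finset.sum_congr rfl fun r _ => Finset.sum_congr rfl fun ψ _ => by ring
  have h2 : ∑ i, ((supp (S i)).card : ℝ)⁻¹ *
        ∑ r ∈ supp (S i), (Fintype.card (P → ZMod 2) : ℝ) * en f r ≤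
      ∑ _i : I, (Fintype.card (P → ZMod 2) : ℝ) * M := by
    refine Finset.sum_le_sum fun i _ => ?_
    have h3 : ∑ r ∈ supp (S i), (Fintype.card (P → ZMod 2) : ℝ) * en f r ≤
        ∑ _r ∈ supp (S i), (Fintype.card (P → ZMod 2) : ℝ) * M :=
      Finset.sum_le_sum fun r hr => mul_le_mul_of_nonneg_left (hM i r hr) hN.le
    rw [Finset.sum_const, nsmul_eq_mul] at h3
    have : (0 : ℝ) < (supp (S i)).card := by exact_mod_cast supp_pos (S i)
    rw [inv_mul_le_iff₀ this]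
    exact h3
  rw [Finset.sum_const, Finset.card_univ, nsmul_eq_mul] at h2
  have h4 : (Fintype.card I : ℝ) * ((Fintype.card (P → ZMod 2) : ℝ) * en f 1) ≤
      (Fintype.card I : ℝ) * ((Fintype.card (P → ZMod 2) : ℝ) * (4 * M)) := by linarith
  exact le_of_mul_le_mul_left (le_of_mul_le_mul_left h4 hI) hN

end

end Pool.Agent.H356Z.O2
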