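import Mathlib

set_option autoImplicit false

namespace Pool.Agent.H356Z.O2

open scoped InnerProductSpace

/-- aperiodic binary sequences -/
def AP : Type := {ω : ℕ → Bool // ∀ a b : ℕ, (∀ n, ω (n + a) = ω (n + b)) → a = b}

def AP.cons (i : Bool) (ω : AP) : AP :=
  ⟨fun n => Nat.casesOn n i ω.1, fun a b h => ω.2 a b fun n => by
    have := h (n + 1)
    rw [show n + 1 + a = (n + a) + 1 by ring, show n + 1 + b = (n + b) + 1 by ring] at this
    exact this⟩

def AP.tail (ω : AP) : AP :=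
  ⟨fun n => ω.1 (n + 1), fun a b h => by
    have := ω.2 (a + 1) (b + 1) fun n => h n
    omega⟩

@[simp] lemma AP.cons_zero (i : Bool) (ω : AP) : (AP.cons i ω).1 0 = i := rfl
@[simp] lemma AP.cons_succ (i : Bool) (ω : AP) (n : ℕ) : (AP.cons i ω).1 (n + 1) = ω.1 n := rfl
@[simp] lemma AP.tail_apply (ω : AP) (n : ℕ) : ω.tail.1 n = ω.1 (n + 1) := rfl
@[simp] lemma AP.tail_cons (i : Bool) (ω : AP) : (AP.cons i ω).tail = ω := rfl

lemma AP.cons_tail (ω : AP) : AP.cons (ω.1 0) ω.tail = ω := by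
  apply Subtype.ext
  funext n
  cases n <;> rfl

lemma AP.cons_injective (i : Bool) : Function.Injective (AP.cons i) := fun x y h => by
  have := congrArg AP.tail h
  simpa using this

lemma AP.cons_ne {i j : Bool} (h : i ≠ j) (x y : AP) : AP.cons i x ≠ AP.cons j y := fun e => by
  have := congrArg (fun z : AP => z.1 0) e
  exact h (by simpa using this)

lemma aux_sq {a b : ℕ} (hab : a < b)
    (h : ∀ n, decide (IsSquare (n + a)) = decide (IsSquare (n + b))) : False := by
  have h1 := h (b * b - a)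
  have hb : a ≤ b * b := by nlinarith
  rw [Nat.sub_add_cancel hb] at h1
  have h2 : IsSquare (b * b - a + b) := by
    have : decide (IsSquare (b * b)) = true := decide_eq_true ⟨b, rfl⟩
    rw [this] at h1
    exact of_decide_eq_true h1.symm
  obtain ⟨t, ht⟩ := h2
  refine Nat.not_exists_sq (m := b) (n := b * b - a + b) (by omega) ?_ ⟨t, ht.symm⟩
  have : (b + 1) * (b + 1) = b * b + 2 * b + 1 := by ring
  omega

instance : Nonempty AP :=
  ⟨⟨fun n => decide (IsSquare n), fun a b h => by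
    rcases lt_trichotomy a b with h1 | h1 | h1
    · exact (aux_sq h1 h).elim
    · exact h1
    · exact (aux_sq h1 fun n => (h n).symm).elim⟩⟩

section

variable {A : Type} [CStarAlgebra A] (g : Bool → A)

/-- the isometry of the initial segment of length `n` -/
def wd (ω : AP) : ℕ → A
  | 0 => 1
  | n + 1 => g (ω.1 0) * wd ω.tail n

variable {g}

lemma wd_iso (hg : ∀ i j, star (g i) * g j = if i = j then 1 else 0) (n : ℕ) :
    ∀ ω : AP, star (wd g ω n) * wd g ω n = 1 := by
  induction n with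
  | zero => intro ω; simp [wd]
  | succ n ih =>
    intro ω
    simp only [wd, star_mul]
    rw [mul_assoc, ← mul_assoc (star (g _)), hg, if_pos rfl, one_mul, ih]

lemma wd_orth (hg : ∀ i j, star (g i) * g j = if i = j then 1 else 0) (j : ℕ) :
    ∀ ω ω' : AP, ω.1 j ≠ ω'.1 j → ∀ n m, j < n → j < m →
      star (wd g ω n) * wd g ω' m = 0 := by
  induction j with
  | zero =>
    intro ω ω' h n m hn hm
    obtain ⟨n, rfl⟩ : ∃ k, n = k + 1 := ⟨n - 1, by omega⟩
    obtain ⟨m, rfl⟩ : ∃ k, m = k + 1 := ⟨m - 1, by omega⟩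
    simp only [wd, star_mul]
    rw [mul_assoc, ← mul_assoc (star (g _)), hg, if_neg h, zero_mul, mul_zero]
  | succ j ih =>
    intro ω ω' h n m hn hm
    obtain ⟨n, rfl⟩ : ∃ k, n = k + 1 := ⟨n - 1, by omega⟩
    obtain ⟨m, rfl⟩ : ∃ k, m = k + 1 := ⟨m - 1, by omega⟩
    simp only [wd, star_mul]
    rw [mul_assoc, ← mul_assoc (star (g _)), hg]
    split_ifs
    · rw [one_mul]
      exact ih ω.tail ω'.tail h n m (by omega) (by omega)
    · rw [zero_mul, mul_zero]

variable {H : Type} [NormedAddCommGroup H] [InnerProductSpace ℂ H] [CompleteSpace H]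
  (π : A →⋆ₐ[ℂ] (H →L[ℂ] H)) (e : AP → H)

/-- the behaviour of a word in the generators and their adjoints -/
def Rel (g : Bool → A) (u : A) (ω : AP) : Prop :=
  (π u (e ω) = 0 ∧ ∃ N, ∀ n, N ≤ n → u * wd g ω n = 0) ∨
    ∃ (ω' : AP) (a b : ℕ), π u (e ω) = e ω' ∧ (∀ n, u * wd g ω (n + a) = wd g ω' (n + b)) ∧
      ∀ n, ω.1 (n + a) = ω'.1 (n + b)

variable {π e}

lemma rel_word (hg : ∀ i j, star (g i) * g j = if i = j then 1 else 0)
    (he : ∀ i ω, π (g i) (e ω) = e (AP.cons i ω)) (ω : AP) {u : A}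
    (hu : u ∈ Submonoid.closure (Set.range g ∪ star (Set.range g))) : Rel π e g u ω := by
  induction hu using Submonoid.closure_induction_left with
  | one => exact Or.inr ⟨ω, 0, 0, by simp, by simp, by simp⟩
  | mul_left x hx y hy ih =>
    rcases ih with ⟨h1, N, h2⟩ | ⟨ω', a, b, h1, h2, h3⟩
    · left
      refine ⟨by rw [map_mul, mul_apply_eq_comp, h1, map_zero], N, fun n hn => ?_⟩
      rw [mul_assoc, h2 n hn, mul_zero]
    · rcases hx with ⟨i, rfl⟩ | hx
      · right
        refine ⟨AP.cons i ω', a, b + 1, ?_, fun n => ?_, fun n => ?_⟩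
        · rw [map_mul, mul_apply_eq_comp, h1, he]
        · rw [mul_assoc, h2, ← add_assoc]
          simp [wd]
        · rw [h3, ← add_assoc, AP.cons_succ]
      · obtain ⟨i, hi⟩ := Set.mem_star.1 hx
        have hx' : x = star (g i) := by rw [hi, star_star]
        subst hx'
        have k1 : π (star (g i) * y) (e ω) =
            π (if i = ω'.1 0 then 1 else 0) (e ω'.tail) := by
          rw [map_mul, mul_apply_eq_comp, h1, ← hg, map_mul,
            mul_apply_eq_comp, he, AP.cons_tail]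
        have k2 : ∀ n, star (g i) * y * wd g ω (n + (a + 1)) =
            (if i = ω'.1 0 then 1 else 0) * wd g ω'.tail (n + b) := by
          intro n
          rw [mul_assoc, show n + (a + 1) = (n + 1) + a by ring, h2,
            show n + 1 + b = (n + b) + 1 by ring]
          simp only [wd]
          rw [← mul_assoc, hg]
        by_cases hi0 : i = ω'.1 0
        · right
          rw [if_pos hi0] at k1 k2
          refine ⟨ω'.tail, a + 1, b, by simpa using k1, fun n => by simpa using k2 n, fun n => ?_⟩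
          rw [show n + (a + 1) = (n + 1) + a by ring, h3, AP.tail_apply,
            show n + 1 + b = n + b + 1 by ring]
        · left
          rw [if_neg hi0] at k1 k2
          refine ⟨by simpa using k1, a + 1, fun n hn => ?_⟩
          have := k2 (n - (a + 1))
          rw [Nat.sub_add_cancel hn] at this
          simpa using this

lemma compress_word (hg : ∀ i j, star (g i) * g j = if i = j then 1 else 0)
    (he : ∀ i ω, π (g i) (e ω) = e (AP.cons i ω)) (ho : Orthonormal ℂ e) (ω : AP) {u : A}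
    (hu : u ∈ Submonoid.closure (Set.range g ∪ star (Set.range g))) :
    ∃ N, ∀ n, N ≤ n → star (wd g ω n) * u * wd g ω n = ⟪e ω, π u (e ω)⟫_ℂ • (1 : A) := by
  rcases rel_word hg he ω hu with ⟨h1, N, h2⟩ | ⟨ω', a, b, h1, h2, h3⟩
  · refine ⟨N, fun n hn => ?_⟩
    rw [mul_assoc, h2 n hn, h1]
    simp
  · by_cases hω : ω = ω'
    · subst hω
      have hab : a = b := ω.2 a b h3
      subst hab
      refine ⟨a, fun n hn => ?_⟩
      have := h2 (n - a)
      rw [Nat.sub_add_cancel hn] at this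
      rw [mul_assoc, this, wd_iso hg, h1, inner_self_eq_norm_sq_to_K, ho.1 ω]
      simp
    · have : ∃ j, ω.1 j ≠ ω'.1 j := by
        by_contra hcon
        push Not at hcon
        exact hω (Subtype.ext (funext hcon))
      obtain ⟨j, hj⟩ := this
      refine ⟨a + j + 1, fun n hn => ?_⟩
      have := h2 (n - a)
      rw [Nat.sub_add_cancel (by omega)] at this
      rw [mul_assoc, this, wd_orth hg j ω ω' hj _ _ (by omega) (by omega), h1, ho.2 hω]
      simp

lemma compress_adjoin (hg : ∀ i j, star (g i) * g j = if i = j then 1 else 0)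
    (he : ∀ i ω, π (g i) (e ω) = e (AP.cons i ω)) (ho : Orthonormal ℂ e) (ω : AP) {u : A}
    (hu : u ∈ StarAlgebra.adjoin ℂ (Set.range g)) :
    ∃ N, ∀ n, N ≤ n → star (wd g ω n) * u * wd g ω n = ⟪e ω, π u (e ω)⟫_ℂ • (1 : A) := by
  have hu' : u ∈ Submodule.span ℂ
      (Submonoid.closure (Set.range g ∪ star (Set.range g)) : Set A) := by
    rw [← StarAlgebra.adjoin_eq_span]
    exact hu
  clear hu
  induction hu' using Submodule.span_induction with
  | mem x hx => exact compress_word hg he ho ω hx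
  | zero => exact ⟨0, fun n _ => by simp⟩
  | add x y _ _ hx hy =>
    obtain ⟨N, hN⟩ := hx
    obtain ⟨M, hM⟩ := hy
    refine ⟨max N M, fun n hn => ?_⟩
    rw [mul_add, add_mul, hN n (le_of_max_le_left hn), hM n (le_of_max_le_right hn), map_add,
      add_apply, inner_add_right, add_smul]
  | smul c x _ hx =>
    obtain ⟨N, hN⟩ := hx
    refine ⟨N, fun n hn => ?_⟩
    rw [mul_smul_comm, smul_mul_assoc, hN n hn, map_smul, smul_apply,
      inner_smul_right, mul_smul]

lemma norm_wd_le (hg : ∀ i j, star (g i) * g j = if i = j then 1 else 0) (ω : AP) (n : ℕ) :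
    ‖wd g ω n‖ ≤ 1 := by
  have h1 := CStarRing.norm_star_mul_self (x := wd g ω n)
  rw [wd_iso hg] at h1
  have h2 : ‖(1 : A)‖ ≤ 1 := by
    rcases subsingleton_or_nontrivial A with h | h
    · rw [Subsingleton.elim (1 : A) 0]; simp
    · simp
  nlinarith [norm_nonneg (wd g ω n)]

lemma compress_closure (hg : ∀ i j, star (g i) * g j = if i = j then 1 else 0)
    (he : ∀ i ω, π (g i) (e ω) = e (AP.cons i ω)) (ho : Orthonormal ℂ e)
    (hgen : (StarAlgebra.adjoin ℂ (Set.range g)).topologicalClosure = ⊤) (ω : AP) (y : A)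
    {ε : ℝ} (hε : 0 < ε) :
    ∃ w : A, ‖star w * y * w - ⟪e ω, π y (e ω)⟫_ℂ • (1 : A)‖ ≤ ε := by
  have hy : y ∈ closure (StarAlgebra.adjoin ℂ (Set.range g) : Set A) := by
    rw [← StarSubalgebra.topologicalClosure_coe, hgen]
    trivial
  obtain ⟨u, hu, hd⟩ := Metric.mem_closure_iff.1 hy (ε / 2) (by positivity)
  rw [dist_eq_norm] at hd
  obtain ⟨N, hN⟩ := compress_adjoin hg he ho ω hu
  refine ⟨wd g ω N, ?_⟩
  have e1 : star (wd g ω N) * y * wd g ω N - ⟪e ω, π y (e ω)⟫_ℂ • (1 : A) =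
      star (wd g ω N) * (y - u) * wd g ω N - ⟪e ω, π (y - u) (e ω)⟫_ℂ • (1 : A) := by
    rw [mul_sub, sub_mul, hN N le_rfl, map_sub, sub_apply, inner_sub_right,
      sub_smul]
    abel
  rw [e1]
  have h1 : ‖(1 : A)‖ ≤ 1 := by
    rcases subsingleton_or_nontrivial A with h | h
    · rw [Subsingleton.elim (1 : A) 0]; simp
    · simp
  have h2 := norm_wd_le hg ω N
  have h3 : ‖star (wd g ω N) * (y - u) * wd g ω N‖ ≤ ‖y - u‖ := by
    calc _ ≤ ‖star (wd g ω N)‖ * ‖y - u‖ * ‖wd g ω N‖ :=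
          (norm_mul_le _ _).trans (by gcongr; exact norm_mul_le _ _)
      _ ≤ 1 * ‖y - u‖ * 1 := by rw [norm_star]; gcongr
      _ = _ := by ring
  have h4 : ‖⟪e ω, π (y - u) (e ω)⟫_ℂ‖ ≤ ‖y - u‖ := by
    calc _ ≤ ‖e ω‖ * ‖π (y - u) (e ω)‖ := norm_inner_le_norm _ _
      _ ≤ ‖e ω‖ * (‖π (y - u)‖ * ‖e ω‖) := by gcongr; exact ContinuousLinearMap.le_opNorm _ _
      _ = ‖π (y - u)‖ := by rw [ho.1 ω]; ring
      _ ≤ _ := NonUnitalStarAlgHom.norm_apply_le π _
  have h5 : ‖⟪e ω, π (y - u) (e ω)⟫_ℂ • (1 : A)‖ ≤ ‖y - u‖ := by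
    rw [norm_smul]
    calc _ ≤ ‖y - u‖ * 1 := by gcongr
      _ = _ := mul_one _
  calc _ ≤ _ := norm_sub_le _ _
    _ ≤ ‖y - u‖ + ‖y - u‖ := add_le_add h3 h5
    _ ≤ ε := by linarith

end

end Pool.Agent.H356Z.O2
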